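import Mathlib
import Pool.Agent.H18.Rec5
import Pool.Agent.H18.Rec6

open Set Filter Topology

namespace Pool.Agent.Results.MP_3e1352_an.NoRec

/-- Every orbit `{T^n x : n ∈ ℤ}` is dense. -/
def IsMinimal {X : Type} [TopologicalSpace X] (T : X ≃ₜ X) : Prop :=
  ∀ x, Dense (range fun n : ℤ => (T ^ n) x)

/-- Two minimal homeomorphisms of one compact metric space with no point recurrent along `(n, 2n, n²)`. -/
theorem result : ∃ (X : Type) (_ : MetricSpace X) (_ : CompactSpace X) (_ : Nonempty X) (T S : X ≃ₜ X),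
    IsMinimal T ∧ IsMinimal S ∧ ∀ x, ¬ ∃ n : ℕ → ℤ, Tendsto n atTop atTop ∧
      Tendsto (fun i => (T ^ n i) x) atTop (𝓝 x) ∧ Tendsto (fun i => (T ^ (2 * n i)) x) atTop (𝓝 x) ∧
      Tendsto (fun i => (S ^ (n i ^ 2)) x) atTop (𝓝 x) := by
  obtain ⟨T, c, c', hc, hc', hT, N, hN⟩ := H18.Rec4.side
  obtain ⟨S, d, hd, hS, M, hM⟩ := H18.Rec6.side' (Polynomial.X ^ 2) (by simp)
  let ν : (ℕ → Bool) ≃ₜ (ℕ → Bool) :=
    { toFun := fun z i => !z i
      invFun := fun z i => !z i
      left_inv := fun z => by simp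
      right_inv := fun z => by simp
      continuous_toFun := continuous_pi fun i =>
        (continuous_of_discreteTopology (f := not)).comp (continuous_apply i)
      continuous_invFun := continuous_pi fun i =>
        (continuous_of_discreteTopology (f := not)).comp (continuous_apply i) }
  letI : MetricSpace (ℕ → Bool) := TopologicalSpace.metrizableSpaceMetric _
  refine ⟨ℕ → Bool, inferInstance, inferInstance, inferInstance, T, (ν.symm.trans S).trans ν, hT, fun z => ?_, ?_⟩
  · simp only [H18.Rec3.conj_zpow]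
    exact ν.surjective.denseRange.comp (hS _) ν.continuous
  rintro x ⟨n, h1, h2, h2', h3⟩
  simp only [H18.Rec3.conj_zpow] at h3
  have h4 := (hc.tendsto x).comp h2
  have h4' := (hc'.tendsto x).comp h2'
  have h5 := ((hd.comp ν.symm.continuous).tendsto x).comp h3
  rw [nhds_discrete, tendsto_pure] at h4 h4' h5
  obtain ⟨i, h6, h6', h7, h8⟩ := (h4.and (h4'.and (h5.and (h1.eventually_ge_atTop (N + M))))).exists
  simp only [Function.comp] at h6 h6' h7
  obtain ⟨m, hm⟩ := Int.eq_ofNat_of_zero_le (show 0 ≤ n i by omega)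
  rw [hm] at h6 h6' h7 h8
  have h9 := hN x m (by omega) h6 h6'
  have h10 : (!x (2 * (m : ℤ).natAbs + 1)) = true := hM (ν.symm x) m (by omega) (by simpa using h7)
  simp [h9] at h10

end Pool.Agent.Results.MP_3e1352_an.NoRec
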